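import Pool.Agent.Y879.PR.Full
import Pool.Agent.Y879.GL.Linear
import Pool.Agent.Y879.GL.QuadU

set_option autoImplicit false

/-!
# One prime and `k - 1` almost primes for all admissible shifts which are not close to each other

Call `n` good for the shifts `a i` if no `n + a i` has a prime factor up to `N ^ (1 / r)`. Uniformly for all
admissible `k`-tuples of shifts `a i ≤ N ^ E` with mutual distances larger than `N ^ δ'`, for every `j` and every
window `(v, v + Y]` with `Y ≥ δ X`, `v + Y + a j ≤ X`, `X ≥ N ^ θ`: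

(1) the number of the good `n` in the window for which `n + a j` is a prime is `Y S / log X` up to the factor
`1 + O (ε)`;

(2) after these `n` the good integers follow the Poisson law.

The theorem for general systems of polynomials is `Pool.Agent.Y879.PR.prime_full` of the starting library.
-/

namespace Pool.Agent.Results.MP_f686a1_nt.LawAfterPrimes

open Finset Filter

/-- No prime up to `N ^ (1 / r)` divides one of the `n + a i`. -/
def Good {k : ℕ} (a : Fin k → ℕ) (N r n : ℕ) : Prop :=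
  ∀ p : ℕ, p.Prime → (p : ℝ) ≤ (N : ℝ) ^ (1 / (r : ℝ)) → ∀ i, ¬ p ∣ n + a i

open Classical in
/-- The good `n` in `(v, v + Y]` for which `n + a j` is a prime. -/
noncomputable def P {k : ℕ} (a : Fin k → ℕ) (j : Fin k) (N r v Y : ℕ) : Finset ℕ :=
  (Ioc v (v + Y)).filter (fun n => (n + a j).Prime ∧ Good a N r n)

open Classical in
/-- The number of the good `m` in `(n, n + T]`. -/
noncomputable def W {k : ℕ} (a : Fin k → ℕ) (N r T n : ℕ) : ℕ :=
  ((Ioc n (n + T)).filter (fun m => Good a N r m)).card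

/-- The number of the classes modulo `p` which contain a shift. -/
def nu {k : ℕ} (a : Fin k → ℕ) (p : ℕ) : ℕ := (univ.image (fun i => a i % p)).card

/-- The density of the good integers. -/
noncomputable def V {k : ℕ} (a : Fin k → ℕ) (N r : ℕ) : ℝ :=
  ∏ p ∈ (Icc 1 ⌊(N : ℝ) ^ (1 / (r : ℝ))⌋₊).filter Nat.Prime, (1 - nu a p / (p : ℝ))

/-- The density of the good integers among the `n` with `n + a j` prime. -/
noncomputable def S {k : ℕ} (a : Fin k → ℕ) (N r : ℕ) : ℝ :=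
  ∏ p ∈ (Icc 1 ⌊(N : ℝ) ^ (1 / (r : ℝ))⌋₊).filter Nat.Prime, (1 - (nu a p - 1) / ((p : ℝ) - 1))

/-- admissible: every prime `p` has a class without a shift -/
def Admissible {k : ℕ} (a : Fin k → ℕ) : Prop :=
  ∀ p : ℕ, p.Prime → ∃ c : ℕ, ∀ i, a i % p ≠ c % p

open Pool.Agent.TH464.PO Pool.Agent.TH464.PW Pool.Agent.W123.RU.Poly Pool.Agent.W123.RP
open Pool.Agent.H373R2.T7 Pool.Agent.Y879.GL Pool.Agent.Y879.PR

variable {k : ℕ}

/-- the system `x + a i - a j` -/
noncomputable def sy (a : Fin k → ℕ) (j : Fin k) : Fin k → Polynomial ℤ :=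
  fun i => lf 1 ((a i : ℤ) - a j)

lemma sy_Q (a : Fin k → ℕ) (j : Fin k) (p m : ℕ) :
    Q (sy a j) p m ↔ ∃ i, (p : ℤ) ∣ (m : ℤ) + ((a i : ℤ) - a j) := by
  unfold Q sy
  simp only [lf_eval, one_mul]

lemma sy_Q_add (a : Fin k → ℕ) (j : Fin k) (p n : ℕ) :
    Q (sy a j) p (n + a j) ↔ ∃ i, p ∣ n + a i := by
  rw [sy_Q]
  apply exists_congr
  intro i
  rw [show (((n + a j : ℕ) : ℤ) + ((a i : ℤ) - a j)) = ((n + a i : ℕ) : ℤ) by push_cast; ring,
    Int.natCast_dvd_natCast]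

lemma good_iff (a : Fin k → ℕ) (j : Fin k) (N r n : ℕ) :
    Sf (Q (sy a j)) ⌊(N : ℝ) ^ (1 / (r : ℝ))⌋₊ (n + a j) ↔ Good a N r n := by
  have h0 : (0 : ℝ) ≤ (N : ℝ) ^ (1 / (r : ℝ)) := by positivity
  constructor
  · intro h p hp hpX
    have h1 := h p (mem_pz.2 ⟨Nat.le_floor hpX, hp⟩)
    rw [sy_Q_add, not_exists] at h1
    exact h1
  · intro h p hp
    obtain ⟨h1, h2⟩ := mem_pz.1 hp
    rw [sy_Q_add, not_exists]
    exact h p h2 ((Nat.le_floor_iff h0).1 h1)

/-- the number of the classes -/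
lemma sy_nu (a : Fin k → ℕ) (j : Fin k) (p : ℕ) (hp : p.Prime) : nuB (Q (sy a j)) p = nu a p := by
  classical
  unfold nuB nu
  have hp0 : (0 : ℤ) < p := by exact_mod_cast hp.pos
  symm
  apply Finset.card_bij (fun (c : ℕ) _ => (((a j : ℤ) - (c : ℤ)) % p).toNat)
  · intro c hc
    rw [mem_image] at hc
    obtain ⟨i, _, rfl⟩ := hc
    rw [mem_filter, mem_range, sy_Q]
    have h1 := Int.emod_nonneg ((a j : ℤ) - ((a i % p : ℕ) : ℤ)) hp0.ne'
    have h2 := Int.emod_lt_of_pos ((a j : ℤ) - ((a i % p : ℕ) : ℤ)) hp0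
    refine ⟨by omega, i, ?_⟩
    rw [Int.toNat_of_nonneg h1]
    have h3 := Int.emod_add_mul_ediv ((a j : ℤ) - ((a i % p : ℕ) : ℤ)) p
    have h4 := Int.emod_add_mul_ediv ((a i : ℤ)) p
    refine ⟨-(((a j : ℤ) - ((a i % p : ℕ) : ℤ)) / p) + (a i : ℤ) / p, ?_⟩
    have h5 : ((a i % p : ℕ) : ℤ) = (a i : ℤ) % p := Int.natCast_mod _ _
    rw [← h5] at h4
    linear_combination h3 - h4
  · intro c hc c' hc' h
    rw [mem_image] at hc hc'
    obtain ⟨i, _, rfl⟩ := hc
    obtain ⟨i', _, rfl⟩ := hc'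
    have h1 := Int.emod_nonneg ((a j : ℤ) - ((a i % p : ℕ) : ℤ)) hp0.ne'
    have h2 := Int.emod_nonneg ((a j : ℤ) - ((a i' % p : ℕ) : ℤ)) hp0.ne'
    have h3 : ((a j : ℤ) - ((a i % p : ℕ) : ℤ)) % p = ((a j : ℤ) - ((a i' % p : ℕ) : ℤ)) % p := by
      have h' : (((a j : ℤ) - ((a i % p : ℕ) : ℤ)) % p).toNat =
        (((a j : ℤ) - ((a i' % p : ℕ) : ℤ)) % p).toNat := h
      omega
    have h4 : (p : ℤ) ∣ ((a i' % p : ℕ) : ℤ) - ((a i % p : ℕ) : ℤ) := by
      have := Int.ModEq.dvd (show ((a j : ℤ) - ((a i' % p : ℕ) : ℤ)) ≡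
        ((a j : ℤ) - ((a i % p : ℕ) : ℤ)) [ZMOD p] from h3.symm)
      have e : (a j : ℤ) - ((a i % p : ℕ) : ℤ) - ((a j : ℤ) - ((a i' % p : ℕ) : ℤ)) =
        ((a i' % p : ℕ) : ℤ) - ((a i % p : ℕ) : ℤ) := by ring
      rwa [e] at this
    have h5 : a i % p ≡ a i' % p [MOD p] := (Nat.modEq_iff_dvd).2 h4
    have h6 : a i % p % p = a i' % p % p := h5
    rwa [Nat.mod_mod, Nat.mod_mod] at h6
  · intro m hm
    rw [mem_filter, mem_range, sy_Q] at hm
    obtain ⟨h1, i, h2⟩ := hm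
    refine ⟨a i % p, mem_image_of_mem _ (mem_univ i), ?_⟩
    have h3 : ((a j : ℤ) - ((a i % p : ℕ) : ℤ)) % p = (m : ℤ) % p := by
      apply Int.ModEq.symm
      rw [Int.modEq_iff_dvd]
      have h4 := Int.emod_add_mul_ediv ((a i : ℤ)) p
      have h5 : ((a i % p : ℕ) : ℤ) = (a i : ℤ) % p := Int.natCast_mod _ _
      rw [← h5] at h4
      obtain ⟨w, hw⟩ := h2
      refine ⟨-w + (a i : ℤ) / p, ?_⟩
      linear_combination -hw - h4
    rw [h3, Int.emod_eq_of_lt (by positivity) (by exact_mod_cast h1), Int.toNat_natCast]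

lemma V_eq (a : Fin k → ℕ) (j : Fin k) (N r : ℕ) :
    Vq (Q (sy a j)) ⌊(N : ℝ) ^ (1 / (r : ℝ))⌋₊ = V a N r := by
  unfold Vq V
  apply Finset.prod_congr rfl
  intro p hp
  rw [sy_nu a j p (mem_filter.1 hp).2]

lemma nu_pos (a : Fin k → ℕ) (j : Fin k) (p : ℕ) : 1 ≤ nu a p := by
  unfold nu
  exact Finset.card_pos.2 ⟨_, mem_image_of_mem _ (mem_univ j)⟩

lemma nu_lt (a : Fin k → ℕ) (h : Admissible a) (p : ℕ) (hp : p.Prime) : nu a p < p := by
  classical
  obtain ⟨c, hc⟩ := h p hp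
  unfold nu
  have hsub : univ.image (fun i => a i % p) ⊆ (range p).erase (c % p) := by
    intro t ht
    rw [mem_image] at ht
    obtain ⟨i, _, rfl⟩ := ht
    rw [mem_erase, mem_range]
    exact ⟨hc i, Nat.mod_lt _ hp.pos⟩
  have h1 := Finset.card_le_card hsub
  rw [Finset.card_erase_of_mem (mem_range.2 (Nat.mod_lt _ hp.pos)), card_range] at h1
  have := hp.pos
  omega

lemma S_eq (a : Fin k → ℕ) (N r : ℕ) :
    V a N r / Vz ⌊(N : ℝ) ^ (1 / (r : ℝ))⌋₊ = S a N r := by
  classical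
  unfold V S Vz pz
  rw [← Finset.prod_div_distrib]
  apply Finset.prod_congr rfl
  intro p hp
  have hpp : p.Prime := (mem_filter.1 hp).2
  have hp1 : (1 : ℝ) < p := by exact_mod_cast hpp.one_lt
  have hp0 : (p : ℝ) ≠ 0 := by positivity
  have hp2 : (p : ℝ) - 1 ≠ 0 := by linarith
  field_simp
  ring

lemma V_le (a : Fin k → ℕ) (hadm : Admissible a) (j : Fin k) (N r : ℕ) :
    V a N r ≤ Vz ⌊(N : ℝ) ^ (1 / (r : ℝ))⌋₊ := by
  unfold V Vz pz
  apply Finset.prod_le_prod
  · intro p hp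
    have hpp : p.Prime := (mem_filter.1 hp).2
    have h1 : (nu a p : ℝ) ≤ p := by exact_mod_cast (nu_lt a hadm p hpp).le
    have h2 : (0 : ℝ) < p := by exact_mod_cast hpp.pos
    rw [sub_nonneg, div_le_one h2]
    exact h1
  · intro p hp
    have hpp : p.Prime := (mem_filter.1 hp).2
    have h1 : (1 : ℝ) ≤ nu a p := by exact_mod_cast nu_pos a j p
    have h2 : (0 : ℝ) < p := by exact_mod_cast hpp.pos
    have := div_le_div_of_nonneg_right h1 h2.le
    linarith

open Classical in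
/-- **One prime and `k - 1` almost primes: number and law after the primes, uniformly in the shifts.** -/
theorem result (k : ℕ) (E δ' θ δ : ℝ) (hE : 0 < E) (hδ' : 0 < δ') (hθ : 0 < θ) (hδ : 0 < δ) (hδ1 : δ ≤ 1)
    (x0 ε : ℝ) (hε : 0 < ε) (hε1 : ε ≤ 1) :
    ∃ r0 : ℕ, ∀ r : ℕ, r0 ≤ r → ∀ᶠ N : ℕ in atTop, ∀ a : Fin k → ℕ, Admissible a →
      (∀ i, (a i : ℝ) ≤ (N : ℝ) ^ E) → (∀ i i', i ≠ i' → (N : ℝ) ^ δ' < |(a i : ℝ) - a i'|) →
      ∀ j : Fin k, ∀ X : ℕ, (N : ℝ) ^ θ ≤ X → ∀ v Y : ℕ, δ * X ≤ Y → v + Y + a j ≤ X →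
      |((P a j N r v Y).card : ℝ) * Real.log X - Y * S a N r| ≤ ε * (Y * S a N r) ∧
      ∀ T : ℕ, T * V a N r ≤ x0 → ∀ B : Finset ℕ,
      |(((P a j N r v Y).filter (fun n => W a N r T n ∈ B)).card : ℝ) -
        (P a j N r v Y).card * ∑ i ∈ B, Real.exp (-(T * V a N r)) * (T * V a N r) ^ i / i.factorial| ≤
        ε * (P a j N r v Y).card := by
  obtain ⟨r0, hr0, h0⟩ := prime_full 1 k 1 squarefree_one (E + 1) δ' θ δ (by positivity) hδ' hθ hδ hδ1
    x0 ε hε hε1
  refine ⟨r0, ?_⟩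
  intro r hr
  obtain ⟨C, hC, hVz⟩ := Vz_up r (hr0.trans hr)
  filter_upwards [h0 r hr C, hVz, eventually_ge_atTop 1] with N hN hVN hN1
  intro a hadm haN hdis j X hX v Y hY hvY
  have hN1' : (1 : ℝ) ≤ N := by exact_mod_cast hN1
  have hN0 : (0 : ℝ) < N := by linarith
  have hEE : (N : ℝ) ^ E ≤ (N : ℝ) ^ (E + 1) := Real.rpow_le_rpow_of_exponent_le hN1' (by linarith)
  have hus : US k 1 ((N : ℝ) ^ (E + 1)) ((N : ℝ) ^ δ') (sy a j) := by
    apply us_lf k (fun _ => 1) (fun i => (a i : ℤ) - a j)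
    · intro i
      norm_num
    · intro i
      exact isCoprime_one_left
    · intro i
      rw [Int.cast_one, abs_one]
      exact Real.one_le_rpow hN1' (by positivity)
    · intro i
      have h1 := haN i
      have h2 := haN j
      have h3 : (0 : ℝ) ≤ a i := Nat.cast_nonneg _
      have h4 : (0 : ℝ) ≤ a j := Nat.cast_nonneg _
      push_cast
      rw [abs_le]
      constructor <;> linarith
    · intro p hp
      obtain ⟨c, hc⟩ := hadm p hp
      have hpp : (0 : ℤ) < p := by exact_mod_cast hp.pos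
      refine ⟨(((a j : ℤ) - c) % p).toNat, ?_⟩
      intro i hd
      have h1 := Int.emod_nonneg ((a j : ℤ) - c) hpp.ne'
      rw [Int.toNat_of_nonneg h1] at hd
      have h3 := Int.emod_add_mul_ediv ((a j : ℤ) - c) p
      have h4 : (p : ℤ) ∣ (a i : ℤ) - c := by
        obtain ⟨w, hw⟩ := hd
        refine ⟨w + ((a j : ℤ) - c) / p, ?_⟩
        linear_combination hw - h3
      have h5 : c ≡ a i [MOD p] := (Nat.modEq_iff_dvd).2 h4
      exact hc i h5.symm
    · intro i i' t ht htU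
      have ht0 : (0 : ℤ) < t := by exact_mod_cast ht
      refine ⟨fun h => ?_, fun h => ?_⟩
      · obtain ⟨_, h4⟩ := h
        rcases eq_or_ne i i' with rfl | hne
        · simp only [one_mul] at h4
          omega
        · have h5 := hdis i i' hne
          have h6 : (a i : ℝ) - a i' = t := by
            have : (a i : ℤ) - a i' = t := by
              simp only [one_mul] at h4
              linarith
            exact_mod_cast this
          rw [h6, abs_of_nonneg (Nat.cast_nonneg _)] at h5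
          linarith
      · obtain ⟨h3, _⟩ := h
        norm_num at h3
  have hVle : Vq (Q (sy a j)) ⌊(N : ℝ) ^ (1 / (r : ℝ))⌋₊ ≤ C / Real.log N := by
    rw [V_eq]
    exact (V_le a hadm j N r).trans hVN.2
  obtain ⟨g1, g2⟩ := hN (sy a j) 0 hus (by norm_num) (fun p n hp hp1 => by
      have := hp.one_lt
      have := Nat.le_of_dvd one_pos hp1
      omega) ⟨j, fun n => by
        unfold sy
        rw [lf_eval]
        simp⟩ hVle (by
        rw [Nat.cast_zero]
        positivity) X hX (v + a j) Y hY (by omega)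
  -- translation
  have hW : ∀ n T, Wc (Sf (Q (sy a j)) ⌊(N : ℝ) ^ (1 / (r : ℝ))⌋₊) (n + a j) T = W a N r T n := by
    intro n T
    unfold Wc W
    have e : Ioc (n + a j) (n + a j + T) = (Ioc n (n + T)).image (fun m => m + a j) := by
      rw [Finset.image_add_right_Ioc]
      congr 1
      omega
    rw [e, Finset.filter_image, Finset.card_image_of_injective _ (add_left_injective _)]
    simp only [good_iff]
  have hOm : Om 1 0 (Q (sy a j)) ⌊(N : ℝ) ^ (1 / (r : ℝ))⌋₊ (v + a j) Y =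
      (P a j N r v Y).image (fun m => m + a j) := by
    unfold Om P
    have e : Ioc (v + a j) (v + a j + Y) = (Ioc v (v + Y)).image (fun m => m + a j) := by
      rw [Finset.image_add_right_Ioc]
      congr 1
      omega
    rw [e, Finset.filter_image]
    simp only [good_iff, one_mul, add_zero]
  have hcard : (Om 1 0 (Q (sy a j)) ⌊(N : ℝ) ^ (1 / (r : ℝ))⌋₊ (v + a j) Y).card =
      (P a j N r v Y).card := by
    rw [hOm, Finset.card_image_of_injective _ (add_left_injective _)]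
  rw [hcard, V_eq, S_eq] at g1
  refine ⟨g1, fun T hT B => ?_⟩
  have g3 := g2 T (by rw [V_eq]; exact hT) B
  rw [hcard, V_eq, hOm, Finset.filter_image, Finset.card_image_of_injective _ (add_left_injective _)] at g3
  simp only [hW] at g3
  exact g3

end Pool.Agent.Results.MP_f686a1_nt.LawAfterPrimes
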