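import Pool.Agent.V11113.MC.Tu
import Pool.Agent.V11113.MR.BilFam

/-!
# Prime tuples with shifts from thin families of residues

For almost all vectors of shifts `a 1, ..., a r` of the size of `N` from such families for which the set `{0, a 1, ..., a r}`
is admissible there are `n ≤ N` for which `n, n + a 1, ..., n + a r` are primes; their number is given by the formula of Hardy
and Littlewood.

The families are the families of the least residues modulo `m` (an arbitrary integer of the size of `N`) of residues with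
exponential sums `O(#s m ^ (-δ))`, with an arbitrarily small `δ > 0` (`Small`). Examples (part (2)): the values
`x · Q y + f(x) + g(y)` modulo a prime `p` at the pairs of vectors of two arbitrary sets with `#A #A' ≥ p ^ (d + 2 δ)`; for
`d = 1` this contains the products of the elements of two arbitrary sets with `#A #A' ≥ p ^ (1 + 2 δ)` and the multiplicative
subgroups of order `p ^ (1 / 2 + δ)`. Nothing else is assumed about the families; they may have as few as about `m ^ (2 δ)`
different members.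

From the starting files: laws of random integers and the reduction of the prime tuples conjecture to one shift estimates
(`Pool.Agent.W93`, `Pool.Agent.TH890`), in the form of helper251's `Pool.Agent.V11251.DS`. New: the families of residues
(completion), `Pool.Agent.V11113.MC`.
-/

set_option autoImplicit false

namespace Pool.Agent.Results.MP_f686a1_nt.ThinFamilies

open Finset Matrix

/-- The exponential sums over the family `u x ∈ ℤ / m`, `x ∈ s`, at all nonzero frequencies are at most `#s m ^ (-δ)`.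
(`ZMod.stdAddChar` is the character `e(x / m)`.) -/
def Small (m : ℕ) [NeZero m] (δ : ℝ) {ι : Type} (s : Finset ι) (u : ι → ZMod m) : Prop :=
  ∀ b : ZMod m, b ≠ 0 → ‖∑ x ∈ s, (ZMod.stdAddChar (b * u x) : ℂ)‖ ≤ s.card * (m : ℝ) ^ (-δ)

/-- families of values of bilinear forms -/
theorem small_bil (p : ℕ) [NeZero p] (hp : p.Prime) (δ : ℝ) (d : ℕ) (A A' : Finset (Fin d → ZMod p))
    (Q : Matrix (Fin d) (Fin d) (ZMod p)) (hQ : IsUnit Q.det) (h : (p : ℝ) ^ (d + 2 * δ) ≤ A.card * A'.card)
    (f g : (Fin d → ZMod p) → ZMod p) : Small p δ (A ×ˢ A') (fun z => z.1 ⬝ᵥ Q.mulVec z.2 + f z.1 + g z.2) := by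
  have : Fact p.Prime := ⟨hp⟩
  exact fun b hb => Pool.Agent.V11113.MR.bil_small δ p d A A' Q hQ f g h b hb

/-- The number of the residues `t` mod `p` for which `p` divides `t (t + a 1) ... (t + a r)`. -/
def nu {r : ℕ} (a : Fin r → ℕ) (p : ℕ) : ℕ := ((range p).filter (fun t => p ∣ t ∨ ∃ i, p ∣ t + a i)).card

/-- The partial product of the singular series of the tuple `0, a 1, ..., a r` over the primes `p ≤ z`. -/
noncomputable def sing {r : ℕ} (a : Fin r → ℕ) (z : ℕ) : ℝ :=
  ∏ p ∈ (Icc 1 z).filter Nat.Prime, (1 - (nu a p : ℝ) / p) / (1 - 1 / (p : ℝ)) ^ (r + 1)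

/-- The primes `p ≤ N` for which all `p + a i` are primes. -/
def tuples {r : ℕ} (a : Fin r → ℕ) (N : ℕ) : Finset ℕ := (Icc 1 N).filter (fun p : ℕ => p.Prime ∧ ∀ i, (p + a i).Prime)

/-- The formula of Hardy and Littlewood for the tuple `p, p + a 1, ..., p + a r` and the primes `p ≤ N`: the
singular series converges, its sum `S` predicts the weighted number of prime tuples with an error of
at most `N / log ^ U N`, and, if the set `{0, a 1, ..., a r}` is admissible, `S` is positive, `S N / log ^ (r + 1) N`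
predicts the number of prime tuples with a relative error of at most `ε`, and there is a prime tuple with `p ≤ N`. -/
def Holds {r : ℕ} (ε : ℝ) (U N : ℕ) (a : Fin r → ℕ) : Prop :=
  ∃ S : ℝ, Filter.Tendsto (sing a) Filter.atTop (nhds S) ∧
    |∑ p ∈ tuples a N, Real.log p * ∏ i, Real.log (p + a i) - S * N| ≤ (N : ℝ) / Real.log N ^ U ∧
    ((∀ p : ℕ, p.Prime → ∃ t : ℕ, ¬ p ∣ t ∧ ∀ i, ¬ p ∣ t + a i) → 0 < S ∧
      |((tuples a N).card : ℝ) - S * (N / Real.log N ^ (r + 1))| ≤ ε * (S * (N / Real.log N ^ (r + 1))) ∧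
      (tuples a N).Nonempty)

open Classical in
/-- Let `r ≥ 1`, `B`, `U`, `δ > 0` and `ε > 0` be fixed.

(1) Let `N` be large, let `m i` (`i < r`) be moduli with `N / B ≤ m i ≤ B N`, let `u i x ∈ ℤ / m i`, `x ∈ s i`, be ARBITRARY
finite families with exponential sums at most `#(s i) (m i) ^ (-δ)`, and let `0 ≤ c i ≤ B N`. Then, for all the vectors
`(x 1, ..., x r)`, `x i ∈ s i`, with the exception of a proportion of at most `1 / log ^ U N` of them, the formula of Hardy and
Littlewood for the primes `p ≤ N` holds for the tuple `p, p + a 1, ..., p + a r`, where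
`a i = c i + (least residue of u i (x i))`; in particular, if the set `{0, a 1, ..., a r}` is admissible, then some
`n ≤ N` makes all of `n, n + a 1, ..., n + a r` prime.

(2) Let `p` be a prime, `d` arbitrary, let `A` and `A'` be arbitrary sets of vectors modulo `p` with
`#A #A' ≥ p ^ (d + 2 δ)`, let `Q` be an invertible matrix and let `f` and `g` be arbitrary functions. Then the family
`x · Q y + f(x) + g(y)`, `x ∈ A`, `y ∈ A'`, has exponential sums at most `#A #A' p ^ (-δ)`. -/
theorem result (r : ℕ) (hr : 1 ≤ r) (B U : ℕ) (δ : ℝ) (hδ : 0 < δ) (ε : ℝ) (hε : 0 < ε) :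
    (∃ N₀ : ℕ, ∀ N, N₀ ≤ N → ∀ (m : Fin r → ℕ) [∀ i, NeZero (m i)], (∀ i, m i ≤ B * N ∧ N ≤ B * m i) →
      ∀ (ι : Fin r → Type) (s : ∀ i, Finset (ι i)) (u : ∀ i, ι i → ZMod (m i)), (∀ i, Small (m i) δ (s i) (u i)) →
      ∀ c : Fin r → ℕ, (∀ i, c i ≤ B * N) →
      (((Fintype.piFinset s).filter fun x => ¬ Holds ε U N (fun i => c i + (u i (x i)).val)).card : ℝ) ≤
        ((Fintype.piFinset s).card : ℝ) / Real.log N ^ U) ∧
    (∀ (p : ℕ) [NeZero p], p.Prime → ∀ (d : ℕ) (A A' : Finset (Fin d → ZMod p)) (Q : Matrix (Fin d) (Fin d) (ZMod p)),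
      IsUnit Q.det → (p : ℝ) ^ (d + 2 * δ) ≤ A.card * A'.card → ∀ f g : (Fin d → ZMod p) → ZMod p,
      Small p δ (A ×ˢ A') (fun z => z.1 ⬝ᵥ Q.mulVec z.2 + f z.1 + g z.2)) := by
  refine ⟨?_, fun p _ hp d A A' Q hQ h f g => small_bil p hp δ d A A' Q hQ h f g⟩
  obtain ⟨N₀, h⟩ := Pool.Agent.V11113.MC.res_tuples r hr δ hδ B U (min ε (1 / 2)) (lt_min hε (by norm_num))
  refine ⟨N₀ + 3, fun N hN m _ hm ι s u hu c hc => ?_⟩
  refine le_trans ?_ (h N (by omega) m hm ι s u hu c hc)
  apply Nat.cast_le.2 (card_le_card _)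
  intro x hx
  rw [mem_filter] at hx ⊢
  refine ⟨hx.1, fun hcon => hx.2 ?_⟩
  have e : (fun i => c i + 1 * (u i (x i)).val) = fun i => c i + (u i (x i)).val := by
    funext i
    rw [one_mul]
  rw [e] at hcon
  obtain ⟨S, g1, g2, g3⟩ := Pool.Agent.V11251.DS.holds_of_HLs (min ε (1 / 2)) U N _ hcon
  refine ⟨S, g1, g2, fun hadm => ?_⟩
  obtain ⟨hS, g4⟩ := g3 hadm
  have hN0 : (0 : ℝ) < N := by exact_mod_cast (by omega : 0 < N)
  have hlog : 0 < Real.log N := Real.log_pos (by exact_mod_cast (by omega : 1 < N))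
  obtain ⟨W, hW⟩ : ∃ W : ℝ, W = S * (N / Real.log N ^ (r + 1)) := ⟨_, rfl⟩
  have hW0 : 0 < W := by rw [hW]; positivity
  rw [← hW] at g4
  refine ⟨hS, ?_, ?_⟩
  · rw [← hW]
    exact g4.trans (mul_le_mul_of_nonneg_right (min_le_left _ _) hW0.le)
  · rw [nonempty_iff_ne_empty]
    intro hemp
    have g5 : ((Icc 1 N).filter (fun p : ℕ => p.Prime ∧ ∀ i, (p + (c i + (u i (x i)).val)).Prime)).card = 0 := by
      rw [card_eq_zero]
      exact hemp
    rw [g5, Nat.cast_zero, zero_sub, abs_neg, abs_of_pos hW0] at g4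
    have g6 : min ε (1 / 2) * W ≤ 1 / 2 * W := mul_le_mul_of_nonneg_right (min_le_right _ _) hW0.le
    linarith

end Pool.Agent.Results.MP_f686a1_nt.ThinFamilies
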