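import Pool.Agent.V1137.UK.I

/-!
# The uniform prime `k`-tuples statement for typical admissible sets, `k` growing with `x`

Among the admissible sets of `k` integers of `[0, x ^ (1 - δ)]`
* at least a proportion `c ^ k` satisfies the conclusion (with `≥ x (c / log x) ^ k` integers `n ≤ x`), for all
  `k ≤ c √(log x) / log log x`;
* at least a proportion `(c / (k (log log x) ^ 2)) ^ k` satisfies it, for all `k ≤ c log x / (log log x) ^ 2`;
* almost none satisfies it, if `(1 + ε) log x / log log x ≤ k ≤ c log x`, not even with `n ≤ x ^ B`, if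
  `(B + ε) log x / log log x ≤ k ≤ c log x`.
-/

set_option autoImplicit false

namespace Pool.Agent.Results.MP_f686a1_nt.TypicalAdmissibleSets

open Finset Filter

/-- `A` is admissible: for every prime `p` some residue class `r` modulo `p` contains no element of `A`. -/
def Admissible (A : Finset ℕ) : Prop := ∀ p : ℕ, p.Prime → ∃ r : ℕ, ∀ a ∈ A, ¬ a ≡ r [MOD p]

/-- all sets of `k` integers `0 ≤ a ≤ x ^ (1 - δ)` -/
noncomputable def shiftSets (δ : ℝ) (k x : ℕ) : Finset (Finset ℕ) :=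
  (range (⌊(x : ℝ) ^ (1 - δ)⌋₊ + 1)).powersetCard k

open Classical in
/-- the admissible ones -/
noncomputable def admissibleSets (δ : ℝ) (k x : ℕ) : Finset (Finset ℕ) :=
  (shiftSets δ k x).filter (fun A => Admissible A)

open Classical in
/-- the number of the positive integers `n ≤ x` such that all `n + a`, `a ∈ A`, are prime -/
noncomputable def solutions (x : ℕ) (A : Finset ℕ) : ℕ :=
  ((Icc 1 x).filter (fun n => ∀ a ∈ A, (n + a).Prime)).card

open Classical in
/-- the admissible sets `A` with at least `x (c / log x) ^ k` integers `n ≤ x` such that all `n + a` are prime -/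
noncomputable def goodSets (δ c : ℝ) (k x : ℕ) : Finset (Finset ℕ) :=
  (admissibleSets δ k x).filter (fun A => x * (c / Real.log x) ^ k ≤ (solutions x A : ℝ))

open Classical in
/-- the admissible sets `A` such that all `n + a` are prime for some positive integer `n ≤ K` -/
noncomputable def solvableSets (δ K : ℝ) (k x : ℕ) : Finset (Finset ℕ) :=
  (admissibleSets δ k x).filter (fun A => ∃ n : ℕ, 1 ≤ n ∧ (n : ℝ) ≤ K ∧ ∀ a ∈ A, (n + a).Prime)

lemma adm_iff (A : Finset ℕ) : Admissible A ↔ Pool.Agent.V1137.UK.Adm A := by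
  unfold Admissible Pool.Agent.V1137.UK.Adm
  refine forall_congr' fun p => forall_congr' fun hp => ?_
  constructor
  · rintro ⟨r, hr⟩
    refine ⟨p - r % p, fun a ha hd => hr a ha ?_⟩
    have h1 := Nat.mod_lt r hp.pos
    have h2 : p - r % p + a ≡ p - r % p + r % p [MOD p] := by
      rw [Nat.sub_add_cancel h1.le]
      exact ((Nat.modEq_zero_iff_dvd).2 hd).trans ((Nat.modEq_zero_iff_dvd).2 dvd_rfl).symm
    exact (Nat.ModEq.add_left_cancel' _ h2).trans (Nat.mod_modEq r p)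
  · rintro ⟨n, hn⟩
    refine ⟨p - n % p, fun a ha hd => hn a ha ?_⟩
    have h1 := Nat.mod_lt n hp.pos
    have h2 : n + a ≡ n % p + (p - n % p) [MOD p] := Nat.ModEq.add (Nat.mod_modEq n p).symm hd
    rw [Nat.add_sub_cancel' h1.le] at h2
    exact (Nat.modEq_zero_iff_dvd).1 (h2.trans ((Nat.modEq_zero_iff_dvd).2 dvd_rfl))

open Classical in
lemma admissible_eq (δ : ℝ) (k x : ℕ) :
    admissibleSets δ k x = (Pool.Agent.V1137.UK.Pk k ⌊(x : ℝ) ^ (1 - δ)⌋₊).filter Pool.Agent.V1137.UK.Adm := by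
  unfold admissibleSets shiftSets Pool.Agent.V1137.UK.Pk
  exact filter_congr fun A _ => adm_iff A

lemma good_eq (δ c : ℝ) (k x : ℕ) : goodSets δ c k x =
    Pool.Agent.V1137.UK.QQ k ⌊(x : ℝ) ^ (1 - δ)⌋₊ x ((c / Real.log x) ^ k * x) := by
  classical
  unfold goodSets Pool.Agent.V1137.UK.QQ
  rw [admissible_eq]
  ext A
  rw [mem_filter, mem_filter, mem_filter, mul_comm (x : ℝ)]
  unfold solutions Pool.Agent.V1137.UK.N1
  exact and_assoc

lemma solvable_eq (δ K : ℝ) (k x : ℕ) :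
    solvableSets δ K k x = Pool.Agent.V1137.UK.SK k ⌊(x : ℝ) ^ (1 - δ)⌋₊ K := by
  classical
  unfold solvableSets Pool.Agent.V1137.UK.SK
  rw [admissible_eq]
  ext A
  rw [mem_filter, mem_filter, mem_filter]
  exact and_assoc

/-- **Theorem.** For every `0 < δ < 1` there is `c > 0` such that:
(1) for all large `x` and all `k ≥ 1` with `(k log log x) ^ 2 ≤ c log x` at least `c ^ k |𝒜|` of the sets of the family
`𝒜` of all admissible sets of `k` integers of `[0, x ^ (1 - δ)]` have at least `x (c / log x) ^ k` integers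
`1 ≤ n ≤ x` such that all `n + a` are prime;
(2) for all large `x` and all `k ≥ 1` with `k (log log x) ^ 2 ≤ c log x` at least
`(c / (k (log log x) ^ 2)) ^ k (⌊x ^ (1 - δ)⌋ + 1 choose k)` sets `A ∈ 𝒜` have this property;
(3) for all `B ≥ 0`, `ε > 0`, all large `x` and all `k` with `(B + ε) log x / log log x ≤ k ≤ c log x` for all but at
most `x ^ (- ε / 2) |𝒜|` of the sets `A ∈ 𝒜` there is no integer `1 ≤ n ≤ x ^ B` such that all `n + a` are prime. -/
theorem result : ∀ δ : ℝ, 0 < δ → δ < 1 → ∃ c : ℝ, 0 < c ∧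
    (∃ x₀ : ℕ, ∀ x : ℕ, x₀ ≤ x → ∀ k : ℕ, 1 ≤ k →
      (((k : ℝ) * Real.log (Real.log x)) ^ 2 ≤ c * Real.log x →
        c ^ k * ((admissibleSets δ k x).card : ℝ) ≤ ((goodSets δ c k x).card : ℝ)) ∧
      ((k : ℝ) * Real.log (Real.log x) ^ 2 ≤ c * Real.log x →
        (c / (k * Real.log (Real.log x) ^ 2)) ^ k * ((shiftSets δ k x).card : ℝ) ≤ ((goodSets δ c k x).card : ℝ))) ∧
    (∀ B ε : ℝ, 0 ≤ B → 0 < ε → ∃ x₀ : ℕ, ∀ x : ℕ, x₀ ≤ x → ∀ k : ℕ,
      (B + ε) * Real.log x ≤ k * Real.log (Real.log x) → (k : ℝ) ≤ c * Real.log x →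
        ((solvableSets δ ((x : ℝ) ^ B) k x).card : ℝ) ≤
          (x : ℝ) ^ (-(ε / 2)) * ((admissibleSets δ k x).card : ℝ)) := by
  classical
  intro δ hδ hδ1
  obtain ⟨c₁, hc₁, c₂, hc₂, H1⟩ := Pool.Agent.V1137.UK.part1 δ hδ hδ1
  obtain ⟨c₃, hc₃, H2⟩ := Pool.Agent.V1137.UK.part2 δ hδ hδ1
  obtain ⟨c₄, hc₄, H3⟩ := Pool.Agent.V1137.UK.part3 δ hδ hδ1
  obtain ⟨c, hc⟩ : ∃ c : ℝ, c = min (min c₁ c₂) (min c₃ c₄) := ⟨_, rfl⟩
  have hc0 : 0 < c := by rw [hc]; exact lt_min (lt_min hc₁ hc₂) (lt_min hc₃ hc₄)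
  have e1 : c ≤ c₁ := by rw [hc]; exact (min_le_left _ _).trans (min_le_left _ _)
  have e2 : c ≤ c₂ := by rw [hc]; exact (min_le_left _ _).trans (min_le_right _ _)
  have e3 : c ≤ c₃ := by rw [hc]; exact (min_le_right _ _).trans (min_le_left _ _)
  have e4 : c ≤ c₄ := by rw [hc]; exact (min_le_right _ _).trans (min_le_right _ _)
  have tN : Tendsto (fun N : ℕ => (N : ℝ)) atTop atTop := tendsto_natCast_atTop_atTop
  have tL : Tendsto (fun N : ℕ => Real.log (N : ℝ)) atTop atTop := Real.tendsto_log_atTop.comp tN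
  refine ⟨c, hc0, ?_, fun B ε hB hε => ?_⟩
  · obtain ⟨x₀, hx₀⟩ := eventually_atTop.1 (((H1 c hc0 e1).and (H2 c hc0 e3)).and (tL.eventually_ge_atTop 0))
    refine ⟨x₀, fun x hx k hk => ?_⟩
    obtain ⟨⟨h1, h2⟩, h3⟩ := hx₀ x hx
    rw [good_eq]
    constructor
    · intro hk2
      rw [admissible_eq]
      refine le_trans ?_ (h1 k hk (hk2.trans (mul_le_mul_of_nonneg_right e2 h3)))
      apply mul_le_mul_of_nonneg_right _ (Nat.cast_nonneg _)
      exact pow_le_pow_left₀ hc0.le e1 _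
    · intro hk2
      have h4 := h2 k hk (hk2.trans (mul_le_mul_of_nonneg_right e3 h3))
      refine le_trans ?_ h4
      have h5 : (shiftSets δ k x).card = (⌊(x : ℝ) ^ (1 - δ)⌋₊ + 1).choose k :=
        Pool.Agent.V1137.UK.card_Pk k _
      rw [h5]
      apply mul_le_mul_of_nonneg_right _ (Nat.cast_nonneg _)
      apply pow_le_pow_left₀ (by positivity)
      exact div_le_div_of_nonneg_right e3 (by positivity)
  · obtain ⟨x₀, hx₀⟩ := eventually_atTop.1 ((H3 B ε hB hε).and (tL.eventually_ge_atTop 0))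
    refine ⟨x₀, fun x hx k hk1 hk2 => ?_⟩
    obtain ⟨h1, h3⟩ := hx₀ x hx
    rw [solvable_eq, admissible_eq]
    exact h1 k hk1 (hk2.trans (mul_le_mul_of_nonneg_right e4 h3))

end Pool.Agent.Results.MP_f686a1_nt.TypicalAdmissibleSets
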